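import Pool.Agent.PQ94.Base
import Pool.Agent.PQ54.CardMods

/-!
Eventually different functions on `P_κ(μ)` and the cardinal arithmetic.
-/

set_option autoImplicit false

universe u

open Cardinal Set

namespace Pool.Agent.PQ94

open Pool.Agent.PQ54

variable {k m : Cardinal.{u}}

/-! ### Eventually different functions -/

theorem exists_val (r : Below (Order.succ m))
    (ih : ∀ r' : Below (Order.succ m), r' < r → PK k m → Below k) (b : PK k m) :
    ∃ v : Below k, ∀ (r' : Below (Order.succ m)) (h : r' < r), CARDM.ix r ⟨r', h⟩ ∈ b.1 →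
      ih r' h b ≠ v := by
  by_contra hno
  push Not at hno
  choose g hg1 hg2 hg3 using hno
  have h1 : Function.Injective (fun v => (⟨CARDM.ix r ⟨g v, hg1 v⟩, hg2 v⟩ : b.1)) := by
    intro v v' h
    have h2 : CARDM.ix r ⟨g v, hg1 v⟩ = CARDM.ix r ⟨g v', hg1 v'⟩ := Subtype.ext_iff.1 h
    have h3 : g v = g v' := congrArg Subtype.val ((CARDM.ix r).injective h2)
    have h4 := hg3 v
    have h5 := hg3 v'
    have key : ∀ (x y : Below (Order.succ m)) (hx : x < r) (hy : y < r), x = y →
        ih x hx b = ih y hy b := by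
      intro x y hx hy hxy
      subst hxy
      rfl
    rw [← h4, ← h5]
    exact key _ _ _ _ h3
  have h2 := mk_le_of_injective h1
  rw [CARDM.mk_below] at h2
  exact absurd b.2 (not_lt.2 h2)

/-- the eventually different functions -/
noncomputable def evf : Below (Order.succ m) → PK k m → Below k :=
  WellFounded.fix (wellFounded_lt (α := Below (Order.succ m)))
    (fun r ih b => Classical.choose (exists_val r ih b))

theorem evf_spec (r r' : Below (Order.succ m)) (h : r' < r) (b : PK k m)
    (hb : CARDM.ix r ⟨r', h⟩ ∈ b.1) : evf r' b ≠ evf r b := by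
  have h1 : evf r b = Classical.choose (exists_val r (fun y _ => evf y) b) := by
    unfold evf
    rw [WellFounded.fix_eq]
  rw [h1]
  exact Classical.choose_spec (exists_val r (fun y _ => evf y) b) r' h hb

theorem evd (hm : ℵ₀ ≤ m) :
    ∃ (f : Below (Order.succ m) → PK k m → Below k)
    (d : Below (Order.succ m) → Below (Order.succ m) → Below m),
    ∀ r r', r ≠ r' → ∀ b : PK k m, d r r' ∈ b.1 → f r b ≠ f r' b := by
  classical
  have hne : Nonempty (Below m) := by
    rw [← mk_ne_zero_iff, CARDM.mk_below]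
    exact (aleph0_pos.trans_le hm).ne'
  refine ⟨evf, fun r r' => if h : r' < r then CARDM.ix r ⟨r', h⟩ else
    if h : r < r' then CARDM.ix r' ⟨r, h⟩ else Classical.choice hne, ?_⟩
  intro r r' hne b hb
  rcases lt_trichotomy r r' with h | h | h
  · beta_reduce at hb
    rw [dif_neg (not_lt.2 h.le), dif_pos h] at hb
    exact evf_spec r' r h b hb
  · exact absurd h hne
  · beta_reduce at hb
    rw [dif_pos h] at hb
    exact (evf_spec r r' h b hb).symm

/-! ### Cardinal arithmetic -/

theorem card_PK_succ (hkm : k ≤ m) (hm : ℵ₀ ≤ m) (h2 : 2 ^ m = Order.succ m) :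
    #(PK k (Order.succ m)) ≤ Order.succ m := by
  refine le_trans ?_ (CARDM.card m hm h2).1
  exact mk_le_of_injective (f := fun x : PK k (Order.succ m) =>
    (⟨x.1, x.2.trans_le hkm⟩ : PK m (Order.succ m))) (fun x y h => by
      apply Subtype.ext
      exact congrArg (fun t : PK m (Order.succ m) => t.1) h)

theorem card_seq (hkm : k ≤ m) (hm : ℵ₀ ≤ m) (h2 : 2 ^ m = Order.succ m)
    (hW : #(PK k m) ≤ m) : #(PK k m → Set (PK k m × Below k)) ≤ Order.succ m := by
  rw [mk_arrow, lift_id, lift_id, mk_set, mk_prod, lift_id, lift_id, CARDM.mk_below,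
    ← power_mul, ← h2]
  refine power_le_power_left two_ne_zero ?_
  calc #(PK k m) * k * #(PK k m) ≤ m * m * m := by gcongr
    _ = m := by rw [mul_eq_self hm, mul_eq_self hm]

/-- Under GCH, `μ ^ (< κ) = μ` if the cofinality of `μ` is at least `κ`. -/
theorem card_PK (hG : GCH.{u}) (hk : ℵ₀ ≤ k) (hkm : k ≤ m) (hcf : k ≤ m.ord.cof) :
    #(PK k m) ≤ m := by
  have hm : ℵ₀ ≤ m := hk.trans hkm
  have hb : ∀ x : PK k m, ∃ a : Below m, x.1 ⊆ Iio a := by
    intro x
    by_contra hno
    push Not at hno
    have h1 : IsCofinal x.1 := by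
      intro a
      obtain ⟨s, hs, h⟩ := not_subset.1 (hno a)
      exact ⟨s, hs, not_lt.1 h⟩
    have h2 := Order.cof_le h1
    rw [Ordinal.cof_toType] at h2
    exact absurd x.2 (not_lt.2 (hcf.trans h2))
  choose g hg using hb
  have h1 : #(PK k m) ≤ #(Σ a : Below m, Set (Iio a)) := by
    refine mk_le_of_injective (f := fun x => (⟨g x, Subtype.val ⁻¹' x.1⟩ :
      Σ a : Below m, Set (Iio a))) ?_
    intro x y h
    have e1 : g x = g y := congrArg Sigma.fst h
    have key : ∀ (a b : Below m) (s t : Set (Below m)), s ⊆ Iio a → t ⊆ Iio b → a = b →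
        (⟨a, Subtype.val ⁻¹' s⟩ : Σ a : Below m, Set (Iio a)) = ⟨b, Subtype.val ⁻¹' t⟩ →
        s = t := by
      intro a b s t hs ht hab h
      subst hab
      have h' : (Subtype.val ⁻¹' s : Set (Iio a)) = Subtype.val ⁻¹' t := by
        simpa using h
      ext z
      constructor
      · intro hz
        have : (⟨z, hs hz⟩ : Iio a) ∈ (Subtype.val ⁻¹' s : Set (Iio a)) := hz
        rw [h'] at this
        exact this
      · intro hz
        have : (⟨z, ht hz⟩ : Iio a) ∈ (Subtype.val ⁻¹' t : Set (Iio a)) := hz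
        rw [← h'] at this
        exact this
    exact Subtype.ext (key _ _ _ _ (hg x) (hg y) e1 h)
  have h2 : ∀ a : Below m, #(Set (Iio a)) ≤ m := by
    intro a
    rw [mk_set]
    rcases le_or_gt ℵ₀ #(Iio a) with h | h
    · rw [hG _ h]
      exact Order.succ_le_of_lt (CARDM.mk_Iio_lt a)
    · exact (power_lt_aleph0 (natCast_lt_aleph0) h).le.trans hm
  refine h1.trans ?_
  rw [mk_sigma]
  refine (sum_le_mk_mul_iSup _).trans ?_
  rw [CARDM.mk_below]
  calc m * ⨆ a : Below m, #(Set (Iio a)) ≤ m * m := by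
        gcongr
        exact ciSup_le' h2
    _ = m := mul_eq_self hm

end Pool.Agent.PQ94
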