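import Pool.Agent.PQ94.Twin
import Pool.Agent.PQ94.Card

/-!
The module ANTI.
-/

set_option autoImplicit false

universe u

open Cardinal Set

namespace Pool.Agent.PQ94

open Pool.Agent.PQ54 hiding RhoData Meas

namespace Anti

section
variable {k m : Cardinal.{u}} {U : Ultrafilter (PK k (Order.succ m))}

/-- The element zero. -/
noncomputable def zero (m : Cardinal.{u}) : Below (Order.succ m) := Ordinal.ToType.mk ⟨0, by
  rw [mem_Iio, Cardinal.ord_pos]
  exact Order.bot_lt_succ m⟩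

theorem closed1 (hM : Meas U) (G : Below (Order.succ m) → Below (Order.succ m)) :
    {z : PK k (Order.succ m) | ∀ a ∈ z.1, G a ∈ z.1} ∈ U := by
  have h := hM.m2 (fun l => G (l.getD 0 (zero m)))
  refine Filter.mem_of_superset h ?_
  intro z hz a ha
  exact hz [a] (by simpa using ha)

theorem closed2 (hM : Meas U)
    (G : Below (Order.succ m) → Below (Order.succ m) → Below (Order.succ m)) :
    {z : PK k (Order.succ m) | ∀ a ∈ z.1, ∀ b ∈ z.1, G a b ∈ z.1} ∈ U := by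
  have h := hM.m2 (fun l => G (l.getD 0 (zero m)) (l.getD 1 (zero m)))
  refine Filter.mem_of_superset h ?_
  intro z hz a ha b hb
  exact hz [a, b] (by
    intro c hc
    rcases List.mem_cons.1 hc with rfl | hc
    · exact ha
    · rcases List.mem_cons.1 hc with rfl | hc
      · exact hb
      · simp at hc)

/-- The restrictions of the branches. -/
abbrev Br (m : Cardinal.{u}) : Type u :=
  Σ ξ : Below (Order.succ m), (Iio ξ → Bool)

/-- The properties of the basic set. -/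
structure Base (R : RhoData U) (bc : Br m → Below (Order.succ m))
    (C : Set (PK k (Order.succ m))) : Prop where
  c1 : ∀ z ∈ C, ∀ z' ∈ C, tr z = tr z' → ∀ D ∈ z.1, D ∈ z'.1 →
    ∀ x : PK k (Order.succ m), x.1 ⊆ Iio D → Prec x z' → Prec x z
  c2 : ∀ z ∈ C, ∀ x, Prec x z → R.rho x ∈ z.1
  c3 : ∀ z ∈ C, ∀ r ∈ z.1, ∀ r' ∈ z.1, r ≠ r' → R.f r (tr z) ≠ R.f r' (tr z)
  c4 : ∀ z ∈ C, ∀ (ξ : Below (Order.succ m)) (s t : Iio ξ → Bool), bc ⟨ξ, s⟩ ∈ z.1 →
    bc ⟨ξ, t⟩ ∈ z.1 → ∀ a : Iio ξ, s a ≠ t a → (∀ a' : Iio ξ, a' < a → s a' = t a') → a.1 ∈ z.1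

theorem exists_base (hM : Meas U) (R : RhoData U) (bc : Br m → Below (Order.succ m))
    (hbc : Function.Injective bc) : ∃ C ∈ U, Base R bc C := by
  classical
  obtain ⟨C6, hC6, h6⟩ := hM.m6
  have h3 := hM.m3 R.rho
  have hd := closed2 hM (fun r r' => inj (R.d r r'))
  let P : Below (Order.succ m) → Below (Order.succ m) → Below (Order.succ m) → Prop :=
    fun c c' a => ∃ (ξ : Below (Order.succ m)) (s t : Iio ξ → Bool) (h : a < ξ),
      c = bc ⟨ξ, s⟩ ∧ c' = bc ⟨ξ, t⟩ ∧ s ⟨a, h⟩ ≠ t ⟨a, h⟩ ∧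
        ∀ a' : Iio ξ, a'.1 < a → s a' = t a'
  let G : Below (Order.succ m) → Below (Order.succ m) → Below (Order.succ m) := fun c c' =>
    if h : ∃ a, P c c' a then h.choose else c
  have hG := closed2 hM G
  have hGP : ∀ c c' a, P c c' a → G c c' = a := by
    intro c c' a ha
    have hex : ∃ a, P c c' a := ⟨a, ha⟩
    have h1 : G c c' = hex.choose := dif_pos hex
    have h2 : P c c' hex.choose := hex.choose_spec
    rw [h1]
    generalize hex.choose = a₁ at h2 ⊢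
    obtain ⟨ξ, s, t, h, e1, e2, e3, e4⟩ := ha
    obtain ⟨ξ', s', t', h', e1', e2', e3', e4'⟩ := h2
    have i1 := hbc (e1.symm.trans e1')
    have i2 := hbc (e2.symm.trans e2')
    rw [Sigma.mk.inj_iff] at i1 i2
    obtain ⟨i1a, i1b⟩ := i1
    obtain ⟨_, i2b⟩ := i2
    subst i1a
    rw [heq_iff_eq] at i1b i2b
    subst i1b i2b
    rcases lt_trichotomy a₁ a with hlt | heq | hgt
    · exact (e3' (e4 ⟨a₁, h'⟩ hlt)).elim
    · exact heq
    · exact (e3 (e4' ⟨a, h⟩ hgt)).elim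
  refine ⟨C6 ∩ ({z | ∀ x, Prec x z → R.rho x ∈ z.1} ∩
    ({z | ∀ a ∈ z.1, ∀ b ∈ z.1, inj (R.d a b) ∈ z.1} ∩ {z | ∀ a ∈ z.1, ∀ b ∈ z.1, G a b ∈ z.1})),
    Filter.inter_mem hC6 (Filter.inter_mem h3 (Filter.inter_mem hd hG)), ?_⟩
  refine ⟨?_, ?_, ?_, ?_⟩
  · intro z hz z' hz'
    exact h6 z hz.1 z' hz'.1
  · intro z hz
    exact hz.2.1
  · intro z hz r hr r' hr' hne
    have h1 : inj (R.d r r') ∈ z.1 := hz.2.2.1 r hr r' hr'
    exact R.f_ne r r' hne _ (mem_tr.2 h1)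
  · intro z hz ξ s t hs ht a hne hlt
    have h1 := hz.2.2.2 _ hs _ ht
    have h2 : G (bc ⟨ξ, s⟩) (bc ⟨ξ, t⟩) = a.1 :=
      hGP _ _ _ ⟨ξ, s, t, a.2, rfl, rfl, hne, fun a' ha' => hlt a' ha'⟩
    rwa [h2] at h1

/-- The set of the branch `β`. -/
def Cb (bc : Br m → Below (Order.succ m)) (β : Below (Order.succ m) → Bool) :
    Set (PK k (Order.succ m)) :=
  {z | ∀ ξ ∈ z.1, bc ⟨ξ, fun a => β a.1⟩ ∈ z.1}

theorem Cb_mem (hM : Meas U) (bc : Br m → Below (Order.succ m))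
    (β : Below (Order.succ m) → Bool) : Cb bc β ∈ U :=
  closed1 hM (fun ξ => bc ⟨ξ, fun a => β a.1⟩)

theorem dich {R : RhoData U} {bc : Br m → Below (Order.succ m)} {C : Set (PK k (Order.succ m))}
    (hC : Base R bc C) {β β' : Below (Order.succ m) → Bool} {D : Below (Order.succ m)}
    (hD : β D ≠ β' D) (hlt : ∀ a < D, β a = β' a) (z : PK k (Order.succ m)) (hz : z ∈ C)
    (h1 : z ∈ Cb bc β) (h2 : z ∈ Cb bc β') : D ∈ z.1 ∨ z.1 ⊆ Iio D := by
  by_cases h : z.1 ⊆ Iio D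
  · exact Or.inr h
  left
  rw [not_subset] at h
  obtain ⟨ξ, hξ, hξ2⟩ := h
  rw [mem_Iio, not_lt] at hξ2
  rcases hξ2.eq_or_lt with rfl | h3
  · exact hξ
  · exact hC.c4 z hz ξ (fun a => β a.1) (fun a => β' a.1) (h1 ξ hξ) (h2 ξ hξ) ⟨D, h3⟩ hD
      (fun a' ha' => hlt a'.1 ha')

theorem vis_cons (R : RhoData U) (x : PK k (Order.succ m)) (S : List (PK k (Order.succ m)))
    (n : ℕ) : R.vis (x :: S) (n + 1) = R.vis S n := by
  simp [RhoData.vis]

theorem vis_zero (R : RhoData U) (x y : PK k (Order.succ m)) (S : List (PK k (Order.succ m))) :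
    R.vis (x :: y :: S) 0 = some (tr y, R.f (R.rho x) (tr y)) := by
  simp [RhoData.vis]

theorem core {R : RhoData U} {bc : Br m → Below (Order.succ m)} {C : Set (PK k (Order.succ m))}
    (hC : Base R bc C) {D : Below (Order.succ m)} (A : Set (PK k (Order.succ m))) (hA : A ⊆ C)
    (hdich : ∀ z ∈ A, D ∈ z.1 ∨ z.1 ⊆ Iio D) : ∀ (n : ℕ) (x x' : PK k (Order.succ m))
    (S T : List (PK k (Order.succ m))), (x.1 ⊆ Iio D ∨ x'.1 ⊆ Iio D) → x ≠ x' →
    (x :: S).IsChain Prec → (x' :: T).IsChain Prec → (∀ y ∈ S, y ∈ A) → (∀ y ∈ T, y ∈ A) →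
    (∀ n v v', R.vis (x :: S) n = some v → R.vis (x' :: T) n = some v' → v = v') →
    (∃ y, S[n]? = some y ∧ D ∈ y.1) → (∃ y, T[n]? = some y ∧ D ∈ y.1) → False := by
  intro n
  induction n with
  | zero =>
    intro x x' S T hx hne hS hT hSA hTA hvis h1 h2
    obtain ⟨y, hy, hDy⟩ := h1
    obtain ⟨y', hy', hDy'⟩ := h2
    rcases S with _ | ⟨y₁, S⟩
    · simp at hy
    rcases T with _ | ⟨y₁', T⟩
    · simp at hy'
    simp only [List.getElem?_cons_zero, Option.some.injEq] at hy hy'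
    subst hy hy'
    have hv := hvis 0 _ _ (vis_zero R x y₁ S) (vis_zero R x' y₁' T)
    rw [Prod.mk.injEq] at hv
    obtain ⟨hk, hf⟩ := hv
    have hyA := hA (hSA y₁ (by simp))
    have hyA' := hA (hTA y₁' (by simp))
    have hxy : Prec x y₁ := hS.rel
    have hxy' : Prec x' y₁' := hT.rel
    have hρ : R.rho x ≠ R.rho x' := fun h => hne (R.rho_inj h)
    rcases hx with hx | hx
    · have h3 : Prec x y₁' := hC.c1 y₁' hyA' y₁ hyA hk.symm D hDy' hDy x hx hxy
      have h4 := hC.c3 y₁' hyA' _ (hC.c2 y₁' hyA' x h3) _ (hC.c2 y₁' hyA' x' hxy') hρ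
      rw [hk] at hf
      exact h4 hf
    · have h3 : Prec x' y₁ := hC.c1 y₁ hyA y₁' hyA' hk D hDy hDy' x' hx hxy'
      have h4 := hC.c3 y₁ hyA _ (hC.c2 y₁ hyA x hxy) _ (hC.c2 y₁ hyA x' h3) hρ
      rw [← hk] at hf
      exact h4 hf
  | succ n ih =>
    intro x x' S T hx hne hS hT hSA hTA hvis h1 h2
    obtain ⟨y, hy, hDy⟩ := h1
    obtain ⟨y', hy', hDy'⟩ := h2
    rcases S with _ | ⟨y₁, S⟩
    · simp at hy
    rcases T with _ | ⟨y₁', T⟩
    · simp at hy'
    simp only [List.getElem?_cons_succ] at hy hy'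
    have hv := hvis 0 _ _ (vis_zero R x y₁ S) (vis_zero R x' y₁' T)
    rw [Prod.mk.injEq] at hv
    obtain ⟨hk, hf⟩ := hv
    have hyA1 := hSA y₁ (by simp)
    have hyA1' := hTA y₁' (by simp)
    have hyA := hA hyA1
    have hyA' := hA hyA1'
    have hxy : Prec x y₁ := hS.rel
    have hxy' : Prec x' y₁' := hT.rel
    have hρ : R.rho x ≠ R.rho x' := fun h => hne (R.rho_inj h)
    by_cases hDD : D ∈ y₁.1 ∧ D ∈ y₁'.1
    · obtain ⟨hDy, hDy'⟩ := hDD
      rcases hx with hx | hx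
      · have h3 : Prec x y₁' := hC.c1 y₁' hyA' y₁ hyA hk.symm D hDy' hDy x hx hxy
        have h4 := hC.c3 y₁' hyA' _ (hC.c2 y₁' hyA' x h3) _ (hC.c2 y₁' hyA' x' hxy') hρ
        rw [hk] at hf
        exact h4 hf
      · have h3 : Prec x' y₁ := hC.c1 y₁ hyA y₁' hyA' hk D hDy hDy' x' hx hxy'
        have h4 := hC.c3 y₁ hyA _ (hC.c2 y₁ hyA x hxy) _ (hC.c2 y₁ hyA x' h3) hρ
        rw [← hk] at hf
        exact h4 hf
    · refine ih y₁ y₁' S T ?_ ?_ hS.tail hT.tail (fun z hz => hSA z (by simp [hz]))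
        (fun z hz => hTA z (by simp [hz])) ?_ ⟨y, hy, hDy⟩ ⟨y', hy', hDy'⟩
      · rw [not_and_or] at hDD
        rcases hDD with h | h
        · exact Or.inl ((hdich y₁ hyA1).resolve_left h)
        · exact Or.inr ((hdich y₁' hyA1').resolve_left h)
      · intro heq
        subst heq
        exact hC.c3 y₁ hyA _ (hC.c2 y₁ hyA x hxy) _ (hC.c2 y₁ hyA x' hxy') hρ hf
      · intro m v v' h3 h4
        exact hvis (m + 1) v v' (by rw [vis_cons]; exact h3) (by rw [vis_cons]; exact h4)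

/-! ### Long extensions -/

theorem step (hA : Abs Prec U) (p : Cond (Prec (κ := k) (l := Order.succ m)) U)
    (E : Set (PK k (Order.succ m))) (hE : E ∈ U) :
    ∃ p' ≤ p, ∃ y ∈ E, p'.stem = p.stem ++ [y] := by
  have h1 : p.meas ∩ E ∈ U := Filter.inter_mem p.mem hE
  obtain ⟨y, hy, hyE⟩ := U.nonempty_of_mem h1
  refine ⟨⟨p.stem ++ [y], p.meas ∩ {z | Prec y z}, ?_, Filter.inter_mem p.mem (hA.up y), ?_⟩, ?_,
    y, hyE, rfl⟩
  · rw [List.isChain_append]
    refine ⟨p.chain, List.isChain_singleton y, ?_⟩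
    intro a ha b hb
    simp only [List.head?_cons, Option.mem_def, Option.some.injEq] at hb
    subst hb
    exact p.above a ha _ hy
  · intro x hx z hz
    simp only [List.getLast?_append, List.getLast?_singleton, Option.some_or, Option.mem_def,
      Option.some.injEq] at hx
    subst hx
    exact hz.2
  · exact ⟨[y], rfl, by simpa using hy, inter_subset_left⟩

theorem long (hA : Abs Prec U) (n : ℕ) (p : Cond (Prec (κ := k) (l := Order.succ m)) U) :
    ∃ p' ≤ p, n ≤ p'.stem.length := by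
  induction n with
  | zero => exact ⟨p, le_rfl, Nat.zero_le _⟩
  | succ n ih =>
    obtain ⟨p', h1, h2⟩ := ih
    obtain ⟨p'', h3, y, _, h4⟩ := step hA p' univ Filter.univ_mem
    refine ⟨p'', h3.trans h1, ?_⟩
    rw [h4, List.length_append]
    simpa using h2

/-- The conditions that have an element `y` with `D ∈ y` with index at least `n`. -/
def Far (U : Ultrafilter (PK k (Order.succ m))) (D : Below (Order.succ m)) (n : ℕ) :
    Set (Cond (Prec (κ := k) (l := Order.succ m)) U) :=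
  {p | ∃ m, n ≤ m ∧ ∃ y, p.stem[m]? = some y ∧ D ∈ y.1}

theorem far_dense (hA : Abs Prec U) (hfine : ∀ a, {x : PK k (Order.succ m) | a ∈ x.1} ∈ U)
    (D : Below (Order.succ m)) (n : ℕ) (p : Cond (Prec (κ := k) (l := Order.succ m)) U) :
    ∃ p' ≤ p, p' ∈ Far U D n := by
  obtain ⟨p₁, h1, h2⟩ := long hA n p
  obtain ⟨p₂, h3, y, hy, h4⟩ := step hA p₁ _ (hfine D)
  refine ⟨p₂, h3.trans h1, p₁.stem.length, h2, y, ?_, hy⟩
  rw [h4]
  simp

theorem getElem_mono {l : List (PK k (Order.succ m))} (hl : l.IsChain Prec) {i j : ℕ}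
    {y y' : PK k (Order.succ m)} (h1 : l[i]? = some y) (h2 : l[j]? = some y') (hij : i ≤ j) :
    y.1 ⊆ y'.1 := by
  rcases hij.eq_or_lt with rfl | hlt
  · rw [h1] at h2
    rw [Option.some.inj h2]
  · have : IsTrans (PK k (Order.succ m)) Prec := ⟨fun _ _ _ h h' => Prec.trans h h'⟩
    have h3 : l.Pairwise Prec := List.isChain_iff_pairwise.1 hl
    rw [List.pairwise_iff_getElem] at h3
    obtain ⟨hi, e1⟩ := List.getElem?_eq_some_iff.1 h1
    obtain ⟨hj, e2⟩ := List.getElem?_eq_some_iff.1 h2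
    have h4 := h3 i j hi hj hlt
    rw [e1, e2] at h4
    exact h4.1

theorem getElem_of_le {p q : Cond (Prec (κ := k) (l := Order.succ m)) U} (h : q ≤ p) {n : ℕ}
    {y : PK k (Order.succ m)} (hy : p.stem[n]? = some y) : q.stem[n]? = some y := by
  obtain ⟨t, h1⟩ := stem_of_le h
  rw [h1]
  obtain ⟨hi, _⟩ := List.getElem?_eq_some_iff.1 hy
  rw [List.getElem?_append_left hi, hy]

/-- The condition `([x], C)`. -/
def cond1 (hA : Abs Prec U) (x : PK k (Order.succ m)) (C : Set (PK k (Order.succ m)))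
    (hC : C ∈ U) : Cond (Prec (κ := k) (l := Order.succ m)) U where
  stem := [x]
  meas := C ∩ {z | Prec x z}
  chain := List.isChain_singleton x
  mem := Filter.inter_mem hC (hA.up x)
  above := by
    intro y hy z hz
    simp only [List.getLast?_singleton, Option.mem_def, Option.some.injEq] at hy
    subst hy
    exact hz.2

theorem stem_cond1 (hA : Abs Prec U) {x : PK k (Order.succ m)} {C C' : Set (PK k (Order.succ m))}
    {hC : C ∈ U} {hC' : C' ∈ U} {s : Cond (Prec (κ := k) (l := Order.succ m)) U}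
    (h : s ≤ cond1 hA x C hC) (h' : s ≤ cond1 hA x C' hC') :
    ∃ S, s.stem = x :: S ∧ (∀ y ∈ S, y ∈ C ∩ C') := by
  obtain ⟨t, h1, h2, _⟩ := h
  obtain ⟨t', h1', h2', _⟩ := h'
  have e : t = t' := by
    have : (cond1 hA x C hC).stem ++ t = (cond1 hA x C' hC').stem ++ t' := h1.symm.trans h1'
    exact List.append_cancel_left this
  subst e
  exact ⟨t, h1, fun y hy => ⟨(h2 y hy).1, (h2' y hy).1⟩⟩

theorem incompat (hA : Abs Prec U) (hfine : ∀ a, {x : PK k (Order.succ m) | a ∈ x.1} ∈ U)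
    {R : RhoData U} (hv : Vis R.vis) {bc : Br m → Below (Order.succ m)}
    {C : Set (PK k (Order.succ m))} (hC : Base R bc C) {C' C'' : Set (PK k (Order.succ m))}
    (hC' : C' ∈ U) (hC'' : C'' ∈ U) (hCC : C' ∩ C'' ⊆ C)
    {D : Below (Order.succ m)} (hdich : ∀ z ∈ C' ∩ C'', D ∈ z.1 ∨ z.1 ⊆ Iio D)
    {x x' : PK k (Order.succ m)} (hx : x.1 ⊆ Iio D) (hne : x ≠ x')
    {Q : Set (RO (Cond (Prec (κ := k) (l := Order.succ m)) U))} (hQ : IsCompleteSubalgebra Q)
    (hval : ∀ n v, val R.vis n v ∈ Q) (s t : Cond (Prec (κ := k) (l := Order.succ m)) U)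
    (hs : s ≤ cond1 hA x C' hC') (hs' : s ≤ cond1 hA x C'' hC'')
    (ht : t ≤ cond1 hA x' C' hC') (ht' : t ≤ cond1 hA x' C'' hC'') :
    quotVal Q s ⊓ quotVal Q t = ⊥ := by
  by_contra hst
  obtain ⟨s₁, hs₁, ⟨m₁, _, y₁, hy₁, hDy₁⟩, h1⟩ :=
    Ext.main _ Q hQ s t hst (Far U D 1) (far_dense hA hfine D 1)
  rw [inf_comm] at h1
  obtain ⟨t₁, ht₁, ⟨m₂, hm₂, y₂, hy₂, hDy₂⟩, h2⟩ :=
    Ext.main _ Q hQ t s₁ h1 (Far U D (m₁ + 1)) (far_dense hA hfine D (m₁ + 1))
  rw [inf_comm] at h2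
  obtain ⟨s₂, hs₂, ⟨m₃, hm₃, y₃, hy₃, _⟩, h3⟩ :=
    Ext.main _ Q hQ s₁ t₁ h2 (Far U D m₂) (far_dense hA hfine D m₂)
  obtain ⟨S, hS, hSC⟩ := stem_cond1 hA ((hs₂.trans hs₁).trans hs) ((hs₂.trans hs₁).trans hs')
  obtain ⟨T, hT, hTC⟩ := stem_cond1 hA (ht₁.trans ht) (ht₁.trans ht')
  have hlen : m₂ < s₂.stem.length := by
    obtain ⟨h4, _⟩ := List.getElem?_eq_some_iff.1 hy₃
    omega
  obtain ⟨z, hy⟩ : ∃ z, s₂.stem[m₂]? = some z := ⟨_, List.getElem?_eq_getElem hlen⟩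
  have hDy : D ∈ z.1 := by
    have h5 := getElem_mono s₂.chain (getElem_of_le hs₂ hy₁) hy (by omega)
    exact h5 hDy₁
  obtain ⟨n, rfl⟩ : ∃ n, m₂ = n + 1 := ⟨m₂ - 1, by omega⟩
  refine core hC (C' ∩ C'') hCC hdich n x x' S T (Or.inl hx) hne (hS ▸ s₂.chain) (hT ▸ t₁.chain)
    hSC hTC ?_ ⟨z, ?_, hDy⟩ ⟨y₂, ?_, hDy₂⟩
  · intro n v v' h6 h7
    rw [← hS] at h6
    rw [← hT] at h7
    exact VisEq.main _ _ Prec U R.vis hA hv Q hQ hval s₂ t₁ h3 n v v' h6 h7
  · rw [hS] at hy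
    simpa using hy
  · rw [hT] at hy₂
    simpa using hy₂

/-! ### The pigeonhole -/

/-- The restriction of a branch. -/
def restr (β : Below (Order.succ m) → Bool) (ν : Below (Order.succ m)) : Br m :=
  ⟨ν, fun a => β a.1⟩

theorem restr_eq {β β' : Below (Order.succ m) → Bool} {ν ν' : Below (Order.succ m)}
    (h : restr β ν = restr β' ν') : ν = ν' ∧ ∀ a < ν, β a = β' a := by
  unfold restr at h
  rw [Sigma.mk.inj_iff] at h
  obtain ⟨rfl, h⟩ := h
  rw [heq_iff_eq] at h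
  exact ⟨rfl, fun a ha => congrFun h ⟨a, ha⟩⟩

theorem exists_bound (hkm : k ≤ m) (hm : ℵ₀ ≤ m) (x : PK k (Order.succ m)) :
    ∃ ν : Below (Order.succ m), ∀ a ∈ x.1, a < ν :=
  CARDM.bounded (isRegular_succ hm) x.1 ((x.2.trans_le hkm).trans (Order.lt_succ m))

theorem mk_L (k : Cardinal.{u}) : #(Below k) = k := by
  rw [mk_toType, card_ord]

theorem mk_Br (hk : ℵ₀ ≤ m) (h : ∀ D : Below (Order.succ m), #(Iio D → Bool) ≤ Order.succ m) :
    #(Br m) ≤ Order.succ m := by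
  have hk' : ℵ₀ ≤ Order.succ m := hk.trans (Order.le_succ m)
  rw [mk_sigma]
  calc _ ≤ #(Below (Order.succ m)) * ⨆ i : Below (Order.succ m), #(Iio i → Bool) :=
        sum_le_mk_mul_iSup _
    _ ≤ Order.succ m * Order.succ m := by
        rw [mk_L]
        refine mul_le_mul_right ?_ _
        exact ciSup_le' h
    _ = Order.succ m := mul_eq_self hk'

theorem pair (hkm : k ≤ m) (hm : ℵ₀ ≤ m) (hW : #(PK k m) ≤ m)
    (hfine : ∀ a, {x : PK k (Order.succ m) | a ∈ x.1} ∈ U)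
    {R : RhoData U} (hG : ∀ C ∈ U, ∀ x, ∃ b, R.Good C x b) (C : Set (PK k (Order.succ m)))
    (hC : C ∈ U) : ∃ x x', x ≠ x' ∧ ∃ b, R.Good C x b ∧ R.Good C x' b ∧
      R.f (R.rho x) b = R.f (R.rho x') b := by
  choose g hg using hG C hC
  by_contra hn
  push Not at hn
  let F : C → PK k m × Below k := fun x => (g x.1, R.f (R.rho x.1) (g x.1))
  have hF : Function.Injective F := by
    intro x x' h
    rw [Prod.mk.injEq] at h
    by_contra hne
    have hne' : x.1 ≠ x'.1 := fun h => hne (Subtype.ext h)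
    refine hn x.1 x'.1 hne' (g x.1) (hg x.1) ?_ ?_
    · rw [h.1]; exact hg x'.1
    · rw [h.2, h.1]
  have h1 : #C ≤ m := by
    refine (mk_le_of_injective hF).trans ?_
    rw [mk_prod, lift_id, lift_id, mk_L]
    exact (mul_le_mul' hW hkm).trans (mul_eq_self hm).le
  have h2 : (⋃ x : C, x.1.1) = Set.univ := by
    rw [eq_univ_iff_forall]
    intro a
    obtain ⟨x, hx, hxa⟩ := U.nonempty_of_mem (Filter.inter_mem hC (hfine a))
    exact mem_iUnion.2 ⟨⟨x, hx⟩, hxa⟩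
  have h3 : Order.succ m ≤ m := by
    calc Order.succ m = #(Set.univ : Set (Below (Order.succ m))) := by rw [mk_univ, mk_L]
      _ = #(⋃ x : C, x.1.1) := by rw [h2]
      _ ≤ #C * ⨆ x : C, #x.1.1 := mk_iUnion_le _
      _ ≤ m * m := by
          refine mul_le_mul' h1 ?_
          exact ciSup_le' fun x => x.1.2.le.trans hkm
      _ = m := mul_eq_self hm
  exact absurd (Order.lt_succ m) h3.not_gt

end

end Anti

variable {k m : Cardinal.{u}} {U : Ultrafilter (PK k (Order.succ m))}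

theorem anti (hkm : k ≤ m) (h2k : 2 ^ m = Order.succ m) (hW : #(PK k m) ≤ m)
    (hU : IsNormalFine k (Order.succ m) U) (hM : Meas U) (hA : Abs Prec U) (R : RhoData U)
    (hG : ∀ C ∈ U, ∀ x, ∃ b, R.Good C x b) :
    ∃ p q : Below (Order.succ (Order.succ m)) → Cond (Prec (κ := k) (l := Order.succ m)) U,
    (∀ i, R.Twin (p i) (q i)) ∧
    ∀ Q : Set (RO (Cond (Prec (κ := k) (l := Order.succ m)) U)), IsCompleteSubalgebra Q →
      (∀ n v, val R.vis n v ∈ Q) →
      ∀ i j, i ≠ j → ∀ s, s ≤ p i → s ≤ p j → ∀ t, t ≤ q i → t ≤ q j →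
        quotVal Q s ⊓ quotVal Q t = ⊥ := by
  have hm : ℵ₀ ≤ m := hU.uncountable.le.trans hkm
  have hk1 : ℵ₀ ≤ Order.succ m := hm.trans (Order.le_succ m)
  have hk2 : ℵ₀ ≤ Order.succ (Order.succ m) := hk1.trans (Order.le_succ _)
  have hc1 := card_PK_succ hkm hm h2k
  have hBr := Anti.mk_Br hm (CARDM.card m hm h2k).2.2
  have hv : Vis R.vis := (twin hM R).1
  obtain ⟨bc⟩ : Nonempty (Anti.Br m ↪ Below (Order.succ m)) := by
    rw [← Cardinal.le_def, Anti.mk_L]
    exact hBr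
  obtain ⟨br⟩ : Nonempty (Below (Order.succ (Order.succ m)) ↪ (Below (Order.succ m) → Bool)) := by
    rw [← Cardinal.le_def, Anti.mk_L]
    have : #(Below (Order.succ m) → Bool) = 2 ^ Order.succ m := by
      rw [mk_arrow, Anti.mk_L]
      simp
    rw [this]
    exact Order.succ_le_of_lt (cantor _)
  obtain ⟨C, hCU, hC⟩ := Anti.exists_base hM R bc bc.injective
  have hCi : ∀ β, C ∩ Anti.Cb bc β ∈ U := fun β => Filter.inter_mem hCU (Anti.Cb_mem hM bc β)
  have hpair : ∀ β : Below (Order.succ m) → Bool, ∃ x x', x ≠ x' ∧ ∃ b,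
      R.Good (C ∩ Anti.Cb bc β) x b ∧ R.Good (C ∩ Anti.Cb bc β) x' b ∧
      R.f (R.rho x) b = R.f (R.rho x') b := fun β => Anti.pair hkm hm hW hU.fine hG _ (hCi β)
  choose X X' hne B hB1 hB2 hB3 using hpair
  choose N hN using Anti.exists_bound (k := k) hkm hm
  let F : Below (Order.succ (Order.succ m)) →
      PK k (Order.succ m) × PK k (Order.succ m) × PK k m × Anti.Br m := fun i =>
    (X (br i), X' (br i), B (br i), Anti.restr (br i) (N (X (br i))))
  have hFA : #(PK k (Order.succ m) × PK k (Order.succ m) × PK k m × Anti.Br m) <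
      (Order.succ (Order.succ m)).ord.cof := by
    rw [(isRegular_succ hk1).cof_ord]
    refine lt_of_le_of_lt ?_ (Order.lt_succ _)
    simp only [mk_prod, lift_id]
    calc #(PK k (Order.succ m)) * (#(PK k (Order.succ m)) * (#(PK k m) * #(Anti.Br m)))
        ≤ Order.succ m * (Order.succ m * (Order.succ m * Order.succ m)) := by
          refine mul_le_mul' hc1 (mul_le_mul' hc1 (mul_le_mul' ?_ hBr))
          exact hW.trans (Order.le_succ m)
      _ = Order.succ m := by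
          rw [mul_eq_self hk1, mul_eq_self hk1, mul_eq_self hk1]
  obtain ⟨a, ha⟩ := infinite_pigeonhole_card F (Order.succ (Order.succ m))
    (by rw [Anti.mk_L]) hk2 hFA
  obtain ⟨e⟩ : Nonempty (Below (Order.succ (Order.succ m)) ↪ F ⁻¹' {a}) := by
    rw [← Cardinal.le_def, Anti.mk_L]
    exact ha
  obtain ⟨x, x', b, s⟩ := a
  have hF : ∀ i, X (br (e i).1) = x ∧ X' (br (e i).1) = x' ∧ B (br (e i).1) = b ∧
      Anti.restr (br (e i).1) (N x) = s := by
    intro i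
    have h1 : F (e i).1 = (x, x', b, s) := (e i).2
    simp only [F, Prod.mk.injEq] at h1
    refine ⟨h1.1, h1.2.1, h1.2.2.1, ?_⟩
    have h2 := h1.2.2.2
    rw [h1.1] at h2
    exact h2
  refine ⟨fun i => Anti.cond1 hA x _ (hCi (br (e i).1)), fun i => Anti.cond1 hA x' _
    (hCi (br (e i).1)), ?_, ?_⟩
  · intro i
    obtain ⟨e1, e2, e3, _⟩ := hF i
    have g1 := hB1 (br (e i).1)
    have g2 := hB2 (br (e i).1)
    have g3 := hB3 (br (e i).1)
    rw [e1, e3] at g1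
    rw [e2, e3] at g2
    rw [e1, e2, e3] at g3
    refine ⟨?_, x, ?_, x', ?_, b, ?_, ?_, g3⟩
    · intro n
      simp [Anti.cond1, RhoData.vis]
    · simp [Anti.cond1]
    · simp [Anti.cond1]
    · intro S hS
      obtain ⟨y, hy, h2, h3, h4⟩ := g1 S hS
      exact ⟨y, ⟨hy, h2⟩, h2, h3, h4⟩
    · intro S hS
      obtain ⟨y, hy, h2, h3, h4⟩ := g2 S hS
      exact ⟨y, ⟨hy, h2⟩, h2, h3, h4⟩
  · intro Q hQ hval i j hij s' hs1 hs2 t ht1 ht2
    have hbr : (br (e i).1) ≠ (br (e j).1) := by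
      intro h
      exact hij (e.injective (Subtype.ext (br.injective h)))
    have hex : ∃ a, (br (e i).1) a ≠ (br (e j).1) a := by
      by_contra hn
      push Not at hn
      exact hbr (funext hn)
    obtain ⟨D, hD, hmin⟩ := (wellFounded_lt (α := Below (Order.succ m))).has_min
      {a | (br (e i).1) a ≠ (br (e j).1) a} hex
    have hlt : ∀ a < D, (br (e i).1) a = (br (e j).1) a := by
      intro a ha
      by_contra h
      exact hmin a h ha
    have hND : N x ≤ D := by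
      by_contra h
      rw [not_le] at h
      have h1 := Anti.restr_eq ((hF i).2.2.2.trans (hF j).2.2.2.symm)
      exact hD (h1.2 D h)
    refine Anti.incompat hA hU.fine hv hC (hCi _) (hCi _) (fun z hz => hz.1.1) (D := D) ?_ ?_ ?_
      hQ hval s' t hs1 hs2 ht1 ht2
    · intro z hz
      exact Anti.dich hC hD hlt z hz.1.1 hz.1.2 hz.2.2
    · intro a ha
      exact (hN x a ha).trans_le hND
    · obtain ⟨e1, e2, _⟩ := hF i
      have h := hne (br (e i).1)
      rwa [e1, e2] at h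

end Pool.Agent.PQ94
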