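import Pool.Agent.PQ54.Meas
import Pool.Agent.PQ54.Small

/-!
# The supercompact Prikry forcing for `P_κ(μ⁺)`: the toolkit

`κ ≤ μ`, `λ = μ⁺`. The visible part of an element `z` of `P_κ(μ⁺)` is its trace `z ∩ μ`.
-/

set_option autoImplicit false

universe u

open Cardinal Set

namespace Pool.Agent.PQ94

open Pool.Agent.PQ54 Pool.Agent.PQ54.MeasAux

variable {k m : Cardinal.{u}}

/-- The trace `z ∩ μ`. -/
def tr (z : PK k (Order.succ m)) : PK k m :=
  ⟨{b | inj b ∈ z.1}, lt_of_le_of_lt (mk_le_of_injective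
    (f := fun b : {b : Below m | inj b ∈ z.1} => (⟨inj b.1, b.2⟩ : z.1))
    (fun _ _ h => Subtype.ext (inj_injective (Subtype.ext_iff.1 h)))) z.2⟩

theorem mem_tr {z : PK k (Order.succ m)} {b : Below m} : b ∈ (tr z).1 ↔ inj b ∈ z.1 := Iff.rfl

/-- The toolkit of the measure. -/
structure Meas (U : Ultrafilter (PK k (Order.succ m))) : Prop where
  m1 : ∀ x : PK k (Order.succ m), {z | Prec x z} ∈ U
  m2 : ∀ F : List (Below (Order.succ m)) → Below (Order.succ m),
    {z : PK k (Order.succ m) | ∀ l : List (Below (Order.succ m)), (∀ a ∈ l, a ∈ z.1) →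
      F l ∈ z.1} ∈ U
  m3 : ∀ G : PK k (Order.succ m) → Below (Order.succ m),
    {z : PK k (Order.succ m) | ∀ x, Prec x z → G x ∈ z.1} ∈ U
  m6 : ∃ C ∈ U, ∀ z ∈ C, ∀ z' ∈ C, tr z = tr z' → ∀ D ∈ z.1, D ∈ z'.1 →
    ∀ x : PK k (Order.succ m), x.1 ⊆ Iio D → Prec x z' → Prec x z
  m7 : ∀ A : List (PK k (Order.succ m)) → Set (PK k (Order.succ m)), (∀ t, A t ∈ U) →
    {z | ∀ t : List (PK k (Order.succ m)), (∀ x ∈ t, Prec x z) → z ∈ A t} ∈ U

variable {U : Ultrafilter (PK k (Order.succ m))}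

theorem meas6 (hkm : k ≤ m) (h : IsNormalFine k (Order.succ m) U) :
    ∃ C ∈ U, ∀ z ∈ C, ∀ z' ∈ C, tr z = tr z' → ∀ D ∈ z.1, D ∈ z'.1 →
      ∀ x : PK k (Order.succ m), x.1 ⊆ Iio D → Prec x z' → Prec x z := by
  classical
  obtain ⟨b0⟩ := nonempty_below (h.uncountable.trans_le hkm)
  choose i hi using exists_idx (k := m) b0
  let F1 : List (Below (Order.succ m)) → Below (Order.succ m) := fun t =>
    match t with
    | [D, c] => if h : ∃ a < D, inj (i D a) = c then h.choose else D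
    | _ => inj b0
  let F2 : List (Below (Order.succ m)) → Below (Order.succ m) := fun t =>
    match t with
    | [D, a] => inj (i D a)
    | _ => inj b0
  refine ⟨_, Filter.inter_mem (Filter.inter_mem (closed_mem h F1) (closed_mem h F2))
    (init_mem h), ?_⟩
  rintro z ⟨⟨h1, h2⟩, h3⟩ z' ⟨⟨h1', h2'⟩, h3'⟩ htr D hD hD' x hx ⟨hxz, -, a, ha, hao⟩
  have h4 : ∀ b : Below m, inj b ∈ z'.1 → inj b ∈ z.1 := by
    intro b hb
    rw [← mem_tr, htr, mem_tr]
    exact hb
  refine ⟨?_, h3, ?_⟩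
  · intro c hc
    have hcD : c < D := hx hc
    have hcz' := hxz hc
    have h5 : inj (i D c) ∈ z'.1 := h2' [D, c] (by
      intro e he
      rcases List.mem_pair.1 he with rfl | rfl
      · exact hD'
      · exact hcz')
    have h7 : F1 [D, inj (i D c)] ∈ z.1 := h1 [D, inj (i D c)] (by
      intro e he
      rcases List.mem_pair.1 he with rfl | rfl
      · exact hD
      · exact h4 _ h5)
    have h8 : ∃ a < D, inj (i D a) = inj (i D c) := ⟨c, hcD, rfl⟩
    have h9 : F1 [D, inj (i D c)] = h8.choose := dif_pos h8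
    have h10 : h8.choose = c :=
      hi D h8.choose_spec.1 hcD (inj_injective h8.choose_spec.2)
    rw [h9, h10] at h7
    exact h7
  · have h5 : ov a < m.ord := by rw [hao]; exact (otp_lt x.2).trans_le (ord_le_ord.2 hkm)
    obtain ⟨b, rfl⟩ := exists_inj h5
    exact ⟨inj b, h4 b ha, hao⟩

theorem meas (hkm : k ≤ m) (h : IsNormalFine k (Order.succ m) U) : Meas U :=
  ⟨prec_mem (hkm.trans (Order.le_succ m)) h, closed_mem h, closed_prec_mem h, meas6 hkm h,
    diag_list_mem h⟩

theorem abs_prec (h : IsNormalFine k (Order.succ m) U) (hM : Meas U) : Abs Prec U where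
  trans := fun _ _ _ h h' => Prec.trans h h'
  up := hM.m1
  countable := ccompl h
  diag := hM.m7

/-! ### The hidden function -/

/-- The data of the hidden function: `f` eventually different functions, `rho` injective, `T` an
ultrafilter on `P_κ(μ) × κ` such that `rho` is generic for the sequences of sets in `T`. -/
structure RhoData (U : Ultrafilter (PK k (Order.succ m))) where
  f : Below (Order.succ m) → PK k m → Below k
  d : Below (Order.succ m) → Below (Order.succ m) → Below m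
  rho : PK k (Order.succ m) → Below (Order.succ m)
  T : Set (Set (PK k m × Below k))
  f_ne : ∀ r r', r ≠ r' → ∀ b : PK k m, d r r' ∈ b.1 → f r b ≠ f r' b
  rho_inj : Function.Injective rho
  T_inter : ∀ S ∈ T, ∀ S' ∈ T, S ∩ S' ∈ T
  T_empty : ∅ ∉ T
  T_ultra : ∀ S, S ∈ T ∨ Sᶜ ∈ T
  req : ∀ S : PK k m → Set (PK k m × Below k), (∀ b, S b ∈ T) →
    {z : PK k (Order.succ m) | {w : PK k (Order.succ m) |
      (tr w, f (rho z) (tr w)) ∈ S (tr z)} ∈ U} ∈ U

section
variable (R : RhoData U)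

/-- The visible data of a stem: number `n` is `(x_{n+1} ∩ μ, f_{ρ(x_n)}(x_{n+1} ∩ μ))`. -/
noncomputable def RhoData.vis (t : List (PK k (Order.succ m))) (n : ℕ) :
    Option (PK k m × Below k) :=
  match t[n]?, t[n + 1]? with
  | some x, some y => some (tr y, R.f (R.rho x) (tr y))
  | _, _ => none

/-- `b` is good for `C` and `x`. -/
def RhoData.Good (C : Set (PK k (Order.succ m))) (x : PK k (Order.succ m)) (b : PK k m) : Prop :=
  ∀ S ∈ R.T, ∃ y ∈ C, Prec x y ∧ tr y = b ∧
    {w : PK k (Order.succ m) | (tr w, R.f (R.rho y) (tr w)) ∈ S} ∈ U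

/-- The twin relation. -/
def RhoData.Twin (p q : Cond (Prec (κ := k) (l := Order.succ m)) U) : Prop :=
  (∀ n, R.vis p.stem n = R.vis q.stem n) ∧
  ∃ x ∈ p.stem.getLast?, ∃ x' ∈ q.stem.getLast?, ∃ b, R.Good p.meas x b ∧ R.Good q.meas x' b ∧
    R.f (R.rho x) b = R.f (R.rho x') b

end

end Pool.Agent.PQ94
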