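import Pool.Agent.PQ54.Meas

/-!
The cardinal `κ` of a fine normal measure on `P_κ(λ)` is regular.
-/

set_option autoImplicit false

universe u

open Cardinal Set

namespace Pool.Agent.PQ94

open Pool.Agent.PQ54 Pool.Agent.PQ54.MeasAux

theorem le_cof {k l : Cardinal.{u}} {U : Ultrafilter (PK k l)} (hkl : k ≤ l)
    (h : IsNormalFine k l U) : k ≤ k.ord.cof := by
  by_contra hc
  rw [not_le] at hc
  obtain ⟨S, hS, hSc⟩ := Order.exists_cof_eq (α := Below k)
  rw [Ordinal.cof_toType] at hSc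
  have hj : ∀ b : Below k, ∃ c : Below l, ov c = ov b := fun b =>
    exists_ov ((ov_lt b).trans_le (ord_le_ord.2 hkl))
  choose j hj using hj
  have hji : Function.Injective j := by
    intro b c hbc
    exact ov_inj (by rw [← hj b, ← hj c, hbc])
  have hcard : ∀ a : Below k, #(Iic (j a)) < k := by
    intro a
    have h4 : (Iic (j a) : Set (Below l)) = insert (j a) (Iio (j a)) := by
      ext c; simp [le_iff_eq_or_lt]
    rw [h4]
    refine (mk_insert_le).trans_lt ?_
    exact add_lt_of_lt h.uncountable.le (mk_Iio_lt' (by rw [hj]; exact ov_lt a))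
      (one_lt_aleph0.trans_le h.uncountable.le)
  have h1 := h.complete S (fun a => {z : PK k l | Iic (j a.1) ⊆ z.1}) (by rw [hSc]; exact hc)
    (fun a => subset_mem h _ (hcard a.1))
  obtain ⟨z, hz⟩ := U.nonempty_of_mem h1
  have h2 : ∀ b : Below k, j b ∈ z.1 := by
    intro b
    obtain ⟨a, ha, hba⟩ := hS b
    refine mem_iInter.1 hz ⟨a, ha⟩ ?_
    rw [mem_Iic, ← not_lt, ← ov_lt_ov, hj, hj, ov_lt_ov, not_lt]
    exact hba
  have h3 : #(Below k) ≤ #z.1 :=
    mk_le_of_injective (f := fun b => (⟨j b, h2 b⟩ : z.1)) (fun b c hbc =>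
      hji (Subtype.ext_iff.1 hbc))
  rw [mk_below] at h3
  exact absurd z.2 (not_lt.2 h3)

end Pool.Agent.PQ94
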