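import Pool.Agent.PQ94.Card

/-!
Module RHO: the hidden function.
-/

set_option autoImplicit false

universe u

open Cardinal Set

namespace Pool.Agent.PQ94

open Pool.Agent.PQ54 hiding RhoData Meas

open Pool.Agent.PQ54.MeasAux

namespace RhoAux

variable {k m : Cardinal.{u}} {U : Ultrafilter (PK k (Order.succ m))}

/-- A strict upper bound of a small set. -/
theorem exists_bound (hkm : k ≤ m) (hm : ℵ₀ ≤ m) (x : PK k (Order.succ m)) :
    ∃ s : Below (Order.succ m), ∀ a ∈ x.1, a < s :=
  CARDM.bounded (isRegular_succ hm) x.1 ((x.2.trans_le hkm).trans (Order.lt_succ m))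

/-- The set of indices `r` such that the graph of `f r` is in `S` almost everywhere. -/
def XS (U : Ultrafilter (PK k (Order.succ m))) (f : Below (Order.succ m) → PK k m → Below k)
    (S : Set (PK k m × Below k)) : Set (Below (Order.succ m)) :=
  {r | {w : PK k (Order.succ m) | (tr w, f r (tr w)) ∈ S} ∈ U}

/-- The ultrafilter on `κ × κ`. -/
def TT (U : Ultrafilter (PK k (Order.succ m))) (f : Below (Order.succ m) → PK k m → Below k)
    (s : PK k (Order.succ m) → Below (Order.succ m)) : Set (Set (PK k m × Below k)) :=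
  {S | {y | s y ∈ XS U f S} ∈ U}

theorem XS_iInter (h : IsNormalFine k (Order.succ m) U)
    (f : Below (Order.succ m) → PK k m → Below k) {ι : Type u} (hι : #ι < k)
    (S : ι → Set (PK k m × Below k)) (r : Below (Order.succ m)) (hr : ∀ i, r ∈ XS U f (S i)) :
    r ∈ XS U f (⋂ i, S i) := by
  refine Filter.mem_of_superset (h.complete ι _ hι hr) ?_
  intro w hw
  show _ ∈ ⋂ i, S i
  rw [mem_iInter]
  intro i
  exact mem_iInter.1 hw i

theorem TT_iInter (h : IsNormalFine k (Order.succ m) U)
    (f : Below (Order.succ m) → PK k m → Below k) (s : PK k (Order.succ m) → Below (Order.succ m))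
    {ι : Type u} (hι : #ι < k) (S : ι → Set (PK k m × Below k)) (hS : ∀ i, S i ∈ TT U f s) :
    (⋂ i, S i) ∈ TT U f s := by
  refine Filter.mem_of_superset (h.complete ι _ hι hS) ?_
  intro y hy
  exact XS_iInter h f hι S _ fun i => mem_iInter.1 hy i

theorem XS_mono (f : Below (Order.succ m) → PK k m → Below k) {S S' : Set (PK k m × Below k)}
    (h : S ⊆ S') : XS U f S ⊆ XS U f S' :=
  fun _ hr => Filter.mem_of_superset hr fun _ hw => h hw

theorem TT_inter (f : Below (Order.succ m) → PK k m → Below k)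
    (s : PK k (Order.succ m) → Below (Order.succ m)) {S S' : Set (PK k m × Below k)}
    (h : S ∈ TT U f s) (h' : S' ∈ TT U f s) : S ∩ S' ∈ TT U f s := by
  refine Filter.mem_of_superset (Filter.inter_mem h h') ?_
  rintro y ⟨h1, h2⟩
  refine Filter.mem_of_superset (Filter.inter_mem h1 h2) ?_
  rintro w ⟨h3, h4⟩
  exact ⟨h3, h4⟩

theorem TT_empty (f : Below (Order.succ m) → PK k m → Below k)
    (s : PK k (Order.succ m) → Below (Order.succ m)) : ∅ ∉ TT U f s := by
  intro h
  obtain ⟨y, hy⟩ := U.nonempty_of_mem h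
  obtain ⟨w, hw⟩ := U.nonempty_of_mem hy
  exact hw

theorem TT_ultra (f : Below (Order.succ m) → PK k m → Below k)
    (s : PK k (Order.succ m) → Below (Order.succ m)) (S : Set (PK k m × Below k)) :
    S ∈ TT U f s ∨ Sᶜ ∈ TT U f s := by
  by_cases h : S ∈ TT U f s
  · exact Or.inl h
  · refine Or.inr (Filter.mem_of_superset (Ultrafilter.compl_mem_iff_notMem.2 h) ?_)
    intro y hy
    exact Ultrafilter.compl_mem_iff_notMem.2 hy

theorem TT_univ (f : Below (Order.succ m) → PK k m → Below k)
    (s : PK k (Order.succ m) → Below (Order.succ m)) :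
    (Set.univ : Set (PK k m × Below k)) ∈ TT U f s := by
  refine Filter.mem_of_superset Filter.univ_mem ?_
  intro y _
  exact Filter.mem_of_superset Filter.univ_mem fun _ _ => trivial

end RhoAux

open RhoAux

variable {k m : Cardinal.{u}} {U : Ultrafilter (PK k (Order.succ m))}

/-- Module RHO. -/
theorem exists_rho (hkm : k ≤ m) (h2 : 2 ^ m = Order.succ m) (hW : #(PK k m) ≤ m)
    (h : IsNormalFine k (Order.succ m) U) : Nonempty (RhoData U) := by
  have hk : ℵ₀ ≤ k := h.uncountable.le
  have hm : ℵ₀ ≤ m := hk.trans hkm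
  obtain ⟨f, d, hfd⟩ := evd (k := k) hm
  have hc1 := card_PK_succ hkm hm h2
  have hc2 := card_seq hkm hm h2 hW
  choose s hs using exists_bound (k := k) hkm hm
  obtain ⟨z0, -⟩ := U.nonempty_of_mem (Filter.univ_mem (f := (U : Filter (PK k (Order.succ m)))))
  -- the sets `X S` are unbounded
  have hX : ∀ t : TT U f s, ∀ a : Below (Order.succ m), ∃ b ∈ XS U f t.1, a < b := by
    intro t a
    obtain ⟨y, hy1, hy2⟩ := U.nonempty_of_mem (Filter.inter_mem t.2 (h.fine a))
    exact ⟨s y, hy1, hs y a hy2⟩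
  have hcT : #(TT U f s) ≤ Order.succ m := by
    refine le_trans ?_ hc2
    exact mk_le_of_injective (f := fun (t : TT U f s) (_ : PK k m) => t.1) (fun t t' htt' =>
      Subtype.ext (congrFun htt' (tr z0)))
  obtain ⟨phi, hphi⟩ := CARDM.phi m (PK k (Order.succ m)) (TT U f s) (fun t => XS U f t.1) hm hc1
    hcT ⟨z0⟩ hX
  -- enumeration of the sequences
  have hcS : #(PK k m → TT U f s) ≤ #(Below (Order.succ m)) := by
    rw [mk_below]
    refine le_trans ?_ hc2
    exact mk_le_of_injective (f := fun (t : PK k m → TT U f s) (b : PK k m) => (t b).1)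
      (fun t t' htt' => funext fun b => Subtype.ext (congrFun htt' b))
  obtain ⟨g⟩ := hcS
  have : Nonempty (PK k m → TT U f s) := ⟨fun _ => ⟨Set.univ, TT_univ f s⟩⟩
  let seq : Below (Order.succ m) → PK k m → TT U f s := Function.invFun g
  have hseq : Function.Surjective seq := Function.invFun_surjective g.injective
  let SX : PK k (Order.succ m) → Set (PK k m × Below k) := fun x =>
    ⋂ ξ : x.1, (seq ξ.1 (tr x)).1
  have hSX : ∀ x, SX x ∈ TT U f s := fun x =>
    TT_iInter h f s x.2 _ fun ξ => (seq ξ.1 (tr x)).2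
  have hr : ∀ x : PK k (Order.succ m), ∃ η ∈ XS U f (SX x), phi η = x := fun x =>
    hphi x ⟨SX x, hSX x⟩
  choose rho hrho1 hrho2 using hr
  refine ⟨⟨f, d, rho, TT U f s, hfd, ?_, fun S hS S' hS' => TT_inter f s hS hS', TT_empty f s,
    TT_ultra f s, ?_⟩⟩
  · intro x x' hxx'
    rw [← hrho2 x, ← hrho2 x', hxx']
  · intro S hS
    obtain ⟨ξ, hξ⟩ := hseq (fun b => ⟨S b, hS b⟩)
    refine Filter.mem_of_superset (h.fine ξ) ?_
    intro z hz
    have h3 : SX z ⊆ S (tr z) := by
      intro e he
      have h4 := mem_iInter.1 he ⟨ξ, hz⟩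
      rw [hξ] at h4
      exact h4
    exact XS_mono f h3 (hrho1 z)

end Pool.Agent.PQ94
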