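import Pool.Agent.PQ94.Anti
import Pool.Agent.PQ94.Rho
import Pool.Agent.PQ94.Cof
import Pool.Agent.PQ54.Force
import Pool.Agent.PQ54.VG
import Pool.Agent.PQ54.CCVH

/-!
The assembly.
-/

set_option autoImplicit false

universe u

open Cardinal Set

namespace Pool.Agent.PQ94

open Pool.Agent.PQ54 hiding RhoData Meas

/-- The negative answer for `λ = μ⁺` where `μ ^ (< κ) = μ` and `2 ^ μ = μ⁺`. -/
theorem neg {k m : Cardinal.{u}} (hkm : k ≤ m) (hW : #(PK k m) ≤ m) (h2 : 2 ^ m = Order.succ m)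
    (U : Ultrafilter (PK k (Order.succ m))) (hU : IsNormalFine k (Order.succ m) U) :
    ∃ Q : Set (RO (Cond (Prec (κ := k) (l := Order.succ m)) U)),
      IsCompleteSubalgebra Q ∧ ¬ QuotientCC Q univ (Order.succ (Order.succ m)) := by
  have hk : ℵ₀ ≤ k := hU.uncountable.le
  have hm : ℵ₀ ≤ m := hk.trans hkm
  have hk1 : ℵ₀ ≤ Order.succ m := hm.trans (Order.le_succ m)
  have hM : Meas U := meas hkm hU
  have hA : Abs Prec U := abs_prec hU hM
  obtain ⟨R⟩ := exists_rho hkm h2 hW hU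
  obtain ⟨hv, hT, hG⟩ := twin hM R
  obtain ⟨Q, hQ, hval, hQT⟩ := Force.main _ _ Prec U R.vis R.Twin hA hv hT
  obtain ⟨p, q, hpq, hanti⟩ := anti hkm h2 hW hU hM hA R hG
  refine ⟨Q, hQ, VG.main _ _ (isRegular_succ hk1) ?_ Q hQ p q (fun i => hQT _ _ (hpq i))
    (hanti Q hQ hval)⟩
  refine CCVH.cc _ Prec U _ ?_
  refine lt_of_le_of_lt ((mk_list_le_max _).trans (max_le hk1 (card_PK_succ hkm hm h2))) ?_
  exact Order.lt_succ _

/-- The negative answer under GCH, for `λ = μ⁺` where `μ = κ` or `μ ≥ κ` has cofinality at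
least `κ`. -/
theorem neg_gch (hG : GCH.{u}) {k m : Cardinal.{u}} (hkm : k ≤ m) (hcf : m = k ∨ k ≤ m.ord.cof)
    (U : Ultrafilter (PK k (Order.succ m))) (hU : IsNormalFine k (Order.succ m) U) :
    ∃ Q : Set (RO (Cond (Prec (κ := k) (l := Order.succ m)) U)),
      IsCompleteSubalgebra Q ∧ ¬ QuotientCC Q univ (Order.succ (Order.succ m)) := by
  have hcf' : k ≤ m.ord.cof := by
    rcases hcf with rfl | hcf
    · exact le_cof (Order.le_succ _) hU
    · exact hcf
  exact neg hkm (card_PK hG hU.uncountable.le hkm hcf') (hG m (hU.uncountable.le.trans hkm)) U hU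

end Pool.Agent.PQ94
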