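import Pool.Agent.PQ94.Base

/-!
Module TWIN: the twin relation.
-/

set_option autoImplicit false

universe u

open Cardinal Set

namespace Pool.Agent.PQ94

open Pool.Agent.PQ54 hiding RhoData Meas

namespace TwinAux

variable {k m : Cardinal.{u}} {U : Ultrafilter (PK k (Order.succ m))} (R : RhoData U)

theorem T_univ : (univ : Set (PK k m × Below k)) ∈ R.T := by
  rcases R.T_ultra univ with h | h
  · exact h
  · rw [compl_univ] at h
    exact absurd h R.T_empty

theorem good_mem (hM : Meas U) {C : Set (PK k (Order.succ m))} (hC : C ∈ U)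
    (x : PK k (Order.succ m)) : {z : PK k (Order.succ m) | R.Good C x (tr z)} ∈ U := by
  by_contra hne
  have h1 := Ultrafilter.compl_mem_iff_notMem.2 hne
  have h2 : ∀ b : PK k m, ∃ S ∈ R.T, ¬ R.Good C x b → ∀ y ∈ C, Prec x y → tr y = b →
      {w : PK k (Order.succ m) | (tr w, R.f (R.rho y) (tr w)) ∈ S} ∉ U := by
    intro b
    by_cases hb : R.Good C x b
    · exact ⟨univ, T_univ R, fun h => absurd hb h⟩
    · have hb' := hb
      unfold RhoData.Good at hb'
      push Not at hb'
      obtain ⟨S, hS, hS'⟩ := hb'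
      exact ⟨S, hS, fun _ => hS'⟩
  choose S hS hS' using h2
  obtain ⟨z, hz1, hz2, hz3, hz4⟩ := U.nonempty_of_mem
    (Filter.inter_mem h1 (Filter.inter_mem hC (Filter.inter_mem (hM.m1 x) (R.req S hS))))
  exact hS' (tr z) hz1 z hz2 hz3 rfl hz4

/-- The possible next data. -/
def nxt (C C' : Set (PK k (Order.succ m))) (x : PK k (Order.succ m)) (b : PK k m) :
    Set (PK k m × Below k) :=
  {e | ∃ y ∈ C, Prec x y ∧ tr y = b ∧ R.Good C' y e.1 ∧ R.f (R.rho y) e.1 = e.2}

theorem nxt_mem (hM : Meas U) {C C' : Set (PK k (Order.succ m))} (hC' : C' ∈ U)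
    {x : PK k (Order.succ m)} {b : PK k m} (hb : R.Good C x b) : nxt R C C' x b ∈ R.T := by
  rcases R.T_ultra (nxt R C C' x b) with h | h
  · exact h
  · exfalso
    obtain ⟨y, hy1, hy2, hy3, hy4⟩ := hb _ h
    obtain ⟨w, hw1, hw2⟩ := U.nonempty_of_mem (Filter.inter_mem hy4 (good_mem R hM hC' y))
    exact hw1 ⟨y, hy1, hy2, hy3, hw2, rfl⟩

theorem vis_eq_some (t : List (PK k (Order.succ m))) (n : ℕ) (v : PK k m × Below k) :
    R.vis t n = some v ↔ ∃ x y, t[n]? = some x ∧ t[n + 1]? = some y ∧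
      (tr y, R.f (R.rho x) (tr y)) = v := by
  unfold RhoData.vis
  constructor
  · intro h
    split at h
    · next x y h1 h2 => exact ⟨x, y, h1, h2, Option.some_injective _ h⟩
    · exact absurd h (by simp)
  · rintro ⟨x, y, h1, h2, rfl⟩
    rw [h1, h2]

theorem vis_vis : Vis R.vis := by
  constructor
  · intro t s n v h
    rw [vis_eq_some] at h ⊢
    obtain ⟨x, y, h1, h2, h3⟩ := h
    refine ⟨x, y, ?_, ?_, h3⟩
    · rw [List.getElem?_append_left (List.getElem?_eq_some_iff.1 h1).1]; exact h1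
    · rw [List.getElem?_append_left (List.getElem?_eq_some_iff.1 h2).1]; exact h2
  · intro t n h
    exact ⟨_, (vis_eq_some R t n _).2 ⟨t[n]'(by omega), t[n + 1]'(by omega),
      List.getElem?_eq_getElem _, List.getElem?_eq_getElem _, rfl⟩⟩

theorem vis_none {t : List (PK k (Order.succ m))} {n : ℕ} (h : t.length ≤ n + 1) :
    R.vis t n = none := by
  rw [Option.eq_none_iff_forall_ne_some]
  intro v hv
  obtain ⟨x, y, -, h2, -⟩ := (vis_eq_some R t n v).1 hv
  have := (List.getElem?_eq_some_iff.1 h2).1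
  omega

theorem length_le {t s : List (PK k (Order.succ m))} (hs : s ≠ [])
    (h : ∀ n, R.vis t n = R.vis s n) : t.length ≤ s.length := by
  by_contra hc
  have h1 : 1 ≤ s.length := List.length_pos_iff.2 hs
  obtain ⟨v, hv⟩ := (vis_vis R).total t (s.length - 1) (by omega)
  rw [h, vis_none R (by omega)] at hv
  exact absurd hv (by simp)

/-- The extension of a condition by one element. -/
def ext1 (p : Cond (Prec (κ := k) (l := Order.succ m)) U) (C : Set (PK k (Order.succ m)))
    (hC : C ∈ U) (hM : Meas U) (x y : PK k (Order.succ m)) (hx : x ∈ p.stem.getLast?)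
    (hxy : Prec x y) : Cond (Prec (κ := k) (l := Order.succ m)) U where
  stem := p.stem ++ [y]
  meas := (C ∩ p.meas) ∩ {z | Prec y z}
  chain := by
    rw [List.isChain_append]
    refine ⟨p.chain, by simp, ?_⟩
    intro a ha b hb
    have h1 : a = x := by
      rw [Option.mem_def] at ha hx
      rw [ha] at hx
      exact Option.some_injective _ hx
    simp at hb
    subst hb
    rw [h1]; exact hxy
  mem := Filter.inter_mem (Filter.inter_mem hC p.mem) (hM.m1 y)
  above := by
    intro a ha z hz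
    simp at ha
    subst ha
    exact hz.2

theorem good_mono {C C' : Set (PK k (Order.succ m))} {x : PK k (Order.succ m)} {b : PK k m}
    (h : ∀ y ∈ C, Prec x y → y ∈ C') (hb : R.Good C x b) : R.Good C' x b := by
  intro S hS
  obtain ⟨y, h1, h2, h3, h4⟩ := hb S hS
  exact ⟨y, h y h1 h2, h2, h3, h4⟩

theorem vis_concat {t s : List (PK k (Order.succ m))} {x x' y y' : PK k (Order.succ m)}
    (hx : x ∈ t.getLast?) (hx' : x' ∈ s.getLast?) (h : ∀ n, R.vis t n = R.vis s n)
    (hk : tr y = tr y') (hf : R.f (R.rho x) (tr y) = R.f (R.rho x') (tr y')) :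
    ∀ n, R.vis (t ++ [y]) n = R.vis (s ++ [y']) n := by
  have ht : t ≠ [] := by rintro rfl; simp at hx
  have hs : s ≠ [] := by rintro rfl; simp at hx'
  have hl : t.length = s.length :=
    le_antisymm (length_le R hs h) (length_le R ht fun n => (h n).symm)
  have hl1 : 1 ≤ s.length := List.length_pos_iff.2 hs
  intro n
  rcases lt_trichotomy (n + 1) s.length with h1 | h1 | h1
  · obtain ⟨v, hv⟩ := (vis_vis R).total t n (by omega)
    have hv' : R.vis s n = some v := by rw [← h]; exact hv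
    rw [(vis_vis R).mono t [y] n v hv, (vis_vis R).mono s [y'] n v hv']
  · have h2 : (t ++ [y])[n]? = some x := by
      rw [List.getElem?_append_left (by omega)]
      rw [Option.mem_def, List.getLast?_eq_getElem?] at hx
      rw [← hx]; congr 1; omega
    have h3 : (s ++ [y'])[n]? = some x' := by
      rw [List.getElem?_append_left (by omega)]
      rw [Option.mem_def, List.getLast?_eq_getElem?] at hx'
      rw [← hx']; congr 1; omega
    have h4 : (t ++ [y])[n + 1]? = some y := by
      rw [h1, ← hl]; simp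
    have h5 : (s ++ [y'])[n + 1]? = some y' := by
      rw [h1]; simp
    rw [(vis_eq_some R (t ++ [y]) n _).2 ⟨x, y, h2, h4, rfl⟩,
      (vis_eq_some R (s ++ [y']) n _).2 ⟨x', y', h3, h5, rfl⟩, hf, hk]
  · rw [vis_none R (by simp; omega), vis_none R (by simp; omega)]

theorem isTwin (hM : Meas U) : IsTwin R.vis R.Twin := by
  constructor
  · rintro p q ⟨h, x, hx, x', hx', b, h1, h2, h3⟩
    exact ⟨fun n => (h n).symm, x', hx', x, hx, b, h2, h1, h3.symm⟩
  · exact fun p q h => h.1
  · rintro p q ⟨h, x, hx, x', hx', b, h1, h2, h3⟩ C hC A hA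
    have h4 := nxt_mem R hM (Filter.inter_mem hC p.mem) h1
    have h5 := nxt_mem R hM (Filter.inter_mem hA q.mem) h2
    have h6 : (nxt R p.meas (C ∩ p.meas) x b ∩ nxt R q.meas (A ∩ q.meas) x' b).Nonempty := by
      rw [nonempty_iff_ne_empty]
      intro he
      have := R.T_inter _ h4 _ h5
      rw [he] at this
      exact R.T_empty this
    obtain ⟨e, ⟨y, hy1, hy2, hy3, hy4, hy5⟩, y', hy1', hy2', hy3', hy4', hy5'⟩ := h6
    refine ⟨ext1 p C hC hM x y hx hy2, ext1 q A hA hM x' y' hx' hy2', ⟨?_, y, ?_, y', ?_, e.1,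
      ?_, ?_, ?_⟩, ?_, ?_, ⟨y, rfl⟩, ⟨y', rfl⟩, ?_, ?_⟩
    · exact vis_concat R hx hx' h (hy3.trans hy3'.symm) (by rw [hy3, hy3']; exact h3)
    · simp [ext1]
    · simp [ext1]
    · exact good_mono R (fun z hz hz' => ⟨hz, hz'⟩) hy4
    · exact good_mono R (fun z hz hz' => ⟨hz, hz'⟩) hy4'
    · rw [hy5, hy5']
    · exact ⟨[y], rfl, by simpa using hy1, fun z hz => hz.1.2⟩
    · exact ⟨[y'], rfl, by simpa using hy1', fun z hz => hz.1.2⟩
    · exact fun z hz => hz.1.1
    · exact fun z hz => hz.1.1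

end TwinAux

open TwinAux

variable {k m : Cardinal.{u}} {U : Ultrafilter (PK k (Order.succ m))}

/-- Module TWIN. -/
theorem twin (hM : Meas U) (R : RhoData U) : Vis R.vis ∧ IsTwin R.vis R.Twin ∧
    ∀ C ∈ U, ∀ x, ∃ b, R.Good C x b := by
  refine ⟨vis_vis R, isTwin R hM, ?_⟩
  intro C hC x
  obtain ⟨z, hz⟩ := U.nonempty_of_mem (good_mem R hM hC x)
  exact ⟨tr z, hz⟩

end Pool.Agent.PQ94
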